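import Pool.Agent.Helper55.JS.Defs

/-!
# JS-3: greedy choice, and the embedding of the blowup from disjoint copies
-/

set_option autoImplicit false

namespace Pool.Agent.Helper55.JS

open Finset

/-- JS-3a -/
theorem greedy {V α : Type} [DecidableEq V] {t m : ℕ} (A : Fin t → Set α) (inn : α → Finset V)
    (hm : ∀ a, ∀ x ∈ A a, (inn x).card ≤ m)
    (h : ∀ a, ∀ F : Finset V, F.card ≤ t * m → ∃ x ∈ A a, Disjoint (inn x) F) :
    ∃ x : Fin t → α, (∀ a, x a ∈ A a) ∧ ∀ a b, a ≠ b → Disjoint (inn (x a)) (inn (x b)) := by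
  rcases Nat.eq_zero_or_pos t with rfl | ht
  · exact ⟨fun a => a.elim0, fun a => a.elim0, fun a => a.elim0⟩
  obtain ⟨x₀, -, -⟩ := h ⟨0, ht⟩ ∅ (by simp)
  have key : ∀ n : ℕ, n ≤ t → ∃ x : Fin t → α, (∀ a : Fin t, (a : ℕ) < n → x a ∈ A a) ∧
      ∀ a b : Fin t, (a : ℕ) < n → (b : ℕ) < n → a ≠ b → Disjoint (inn (x a)) (inn (x b)) := by
    intro n
    induction n with
    | zero =>
      intro _
      exact ⟨fun _ => x₀, fun a ha => absurd ha (Nat.not_lt_zero _),
        fun a b ha => absurd ha (Nat.not_lt_zero _)⟩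
    | succ n ih =>
      intro hn
      obtain ⟨x, hx1, hx2⟩ := ih (by omega)
      obtain ⟨y, hy1, hy2⟩ := h ⟨n, hn⟩
        ((univ.filter fun b : Fin t => (b : ℕ) < n).biUnion fun b => inn (x b)) (by
          refine (card_biUnion_le_card_mul _ _ m ?_).trans ?_
          · intro b hb
            exact hm b _ (hx1 b (mem_filter.mp hb).2)
          · apply Nat.mul_le_mul_right
            exact (card_filter_le _ _).trans (by simp))
      refine ⟨Function.update x ⟨n, hn⟩ y, ?_, ?_⟩
      · intro a ha
        by_cases han : a = ⟨n, hn⟩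
        · subst han
          rw [Function.update_self]; exact hy1
        · rw [Function.update_of_ne han]
          apply hx1
          have : (a : ℕ) ≠ n := fun h => han (Fin.ext h)
          omega
      · intro a b ha hb hab
        have hdis : ∀ b : Fin t, (b : ℕ) < n → Disjoint (inn y) (inn (x b)) := by
          intro b hb
          refine hy2.mono_right ?_
          intro v hv
          exact mem_biUnion.mpr ⟨b, mem_filter.mpr ⟨mem_univ _, hb⟩, hv⟩
        by_cases hA : a = ⟨n, hn⟩
        · subst hA
          have hbn : b ≠ ⟨n, hn⟩ := fun h => hab h.symm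
          rw [Function.update_self, Function.update_of_ne hbn]
          apply hdis
          have : (b : ℕ) ≠ n := fun h => hbn (Fin.ext h)
          omega
        · have ha' : (a : ℕ) < n := by
            have : (a : ℕ) ≠ n := fun h => hA (Fin.ext h)
            omega
          by_cases hB : b = ⟨n, hn⟩
          · subst hB
            rw [Function.update_self, Function.update_of_ne hA]
            exact (hdis a ha').symm
          · have hb' : (b : ℕ) < n := by
              have : (b : ℕ) ≠ n := fun h => hB (Fin.ext h)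
              omega
            rw [Function.update_of_ne hA, Function.update_of_ne hB]
            exact hx2 a b ha' hb' hab
  obtain ⟨x, h1, h2⟩ := key t le_rfl
  exact ⟨x, fun a => h1 a a.2, fun a b => h2 a b a.2 b.2⟩

/-- the embedding of the blowup -/
def emb {V : Type} {s t : ℕ} {j : Fin s → ℕ} (X : Fin s → V) (u : Fin t → V)
    (p : Fin t → Legs V j) : BV s t j → V
  | Sum.inl c => X c
  | Sum.inr (a, none) => u a
  | Sum.inr (a, some ⟨c, i⟩) => p a c ⟨i + 1, by have := i.2; omega⟩

theorem emb_pt {V : Type} {G : SimpleGraph V} {s t : ℕ}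
    {j : Fin s → ℕ} (hj : ∀ c, 1 ≤ j c) (X : Fin s → V) (u : Fin t → V) (p : Fin t → Legs V j)
    (hc : ∀ a, IsCopy G j (u a) (p a)) (hX : ∀ a c, p a c (Fin.last (j c)) = X c)
    (a : Fin t) (c : Fin s) (i : ℕ) (hi : i ≤ j c) :
    emb X u p (pt a c i) = p a c ⟨i, by omega⟩ := by
  unfold pt
  by_cases h0 : i = 0
  · subst h0
    rw [if_pos rfl]
    exact ((hc a).start c).symm
  · rw [if_neg h0]
    by_cases h1 : i - 1 < j c - 1
    · rw [dif_pos h1]
      change p a c ⟨(i - 1) + 1, _⟩ = _
      congr 1
      ext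
      simp only
      omega
    · rw [dif_neg h1]
      change X c = _
      rw [← hX a c]
      congr 1
      ext
      simp only [Fin.val_last]
      have := hj c
      omega

/-- JS-3b -/
theorem isContained_of_copies {V : Type} {G : SimpleGraph V} {s t : ℕ} (hs : 1 ≤ s) (ht : 1 ≤ t)
    {j : Fin s → ℕ} (hj : ∀ c, 1 ≤ j c) (X : Fin s → V) (u : Fin t → V) (p : Fin t → Legs V j)
    (hc : ∀ a, IsCopy G j (u a) (p a)) (hX : ∀ a c, p a c (Fin.last (j c)) = X c)
    (hd : ∀ a b, a ≠ b → ∀ (c c' : Fin s) (i : Fin (j c)) (i' : Fin (j c')),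
      p a c i.castSucc ≠ p b c' i'.castSucc) :
    (blow s t j).IsContained G := by
  have hlast : ∀ c, Fin.last (j c) ≠ 0 := by
    intro c h
    have h1 := congrArg Fin.val h
    simp only [Fin.val_last, Fin.val_zero] at h1
    have := hj c
    omega
  -- every vertex of a copy other than the roots
  have hrep : ∀ (a : Fin t) (o : Option (Σ c : Fin s, Fin (j c - 1))),
      ∃ (c : Fin s) (i : Fin (j c)), emb X u p (Sum.inr (a, o)) = p a c i.castSucc := by
    intro a o
    rcases o with _ | ⟨c, i⟩
    · refine ⟨⟨0, hs⟩, ⟨0, hj _⟩, ?_⟩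
      change u a = _
      exact ((hc a).start _).symm
    · refine ⟨c, ⟨i + 1, by have := i.2; omega⟩, ?_⟩
      rfl
  have hroot : ∀ (c : Fin s) (a : Fin t) (o : Option (Σ c : Fin s, Fin (j c - 1))),
      X c ≠ emb X u p (Sum.inr (a, o)) := by
    intro c a o h
    obtain ⟨c', i, hi⟩ := hrep a o
    rw [hi, ← hX a c] at h
    obtain ⟨h1, h2⟩ := (hc a).inj c c' _ _ (hlast c) h
    subst h1
    have := i.2
    simp only [Fin.val_last, Fin.val_castSucc] at h2
    omega
  have hinj : Function.Injective (emb X u p) := by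
    intro x y hxy
    rcases x with c | ⟨a, o⟩ <;> rcases y with c' | ⟨b, o'⟩
    · change X c = X c' at hxy
      rw [← hX ⟨0, ht⟩ c, ← hX ⟨0, ht⟩ c'] at hxy
      rw [((hc ⟨0, ht⟩).inj c c' _ _ (hlast c) hxy).1]
    · exact absurd hxy (hroot c b o')
    · exact absurd hxy.symm (hroot c' a o)
    · by_cases hab : a = b
      · subst hab
        rcases o with _ | ⟨c, i⟩ <;> rcases o' with _ | ⟨c', i'⟩
        · rfl
        · exfalso
          change u a = p a c' _ at hxy
          rw [← (hc a).start c'] at hxy
          have h1 := ((hc a).inj c' c' _ _ (by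
            intro h
            have := congrArg Fin.val h
            simp at this) hxy.symm).2
          simp at h1
        · exfalso
          change p a c _ = u a at hxy
          rw [← (hc a).start c] at hxy
          have h1 := ((hc a).inj c c _ _ (by
            intro h
            have := congrArg Fin.val h
            simp at this) hxy).2
          simp at h1
        · change p a c ⟨i + 1, _⟩ = p a c' ⟨i' + 1, _⟩ at hxy
          obtain ⟨h1, h2⟩ := (hc a).inj c c' _ _ (by
            intro h
            have := congrArg Fin.val h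
            simp at this) hxy
          subst h1
          simp only [Nat.add_right_cancel_iff] at h2
          rw [Fin.ext h2]
      · exfalso
        obtain ⟨c, i, hi⟩ := hrep a o
        obtain ⟨c', i', hi'⟩ := hrep b o'
        rw [hi, hi'] at hxy
        exact hd a b hab c c' i i' hxy
  have hstep : ∀ (a : Fin t) (c : Fin s) (i : ℕ), i < j c →
      G.Adj (emb X u p (pt a c i)) (emb X u p (pt a c (i + 1))) := by
    intro a c i hi
    rw [emb_pt hj X u p hc hX a c i hi.le, emb_pt hj X u p hc hX a c (i + 1) hi]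
    exact (hc a).walk c ⟨i, hi⟩
  refine ⟨⟨⟨emb X u p, ?_⟩, hinj⟩⟩
  intro x y hxy
  rw [blow, SimpleGraph.fromRel_adj] at hxy
  rcases hxy.2 with ⟨a, c, i, hi, rfl, rfl⟩ | ⟨a, c, i, hi, rfl, rfl⟩
  · exact hstep a c i hi
  · exact (hstep a c i hi).symm

end Pool.Agent.Helper55.JS
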